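import Pool.Agent.helper80.HM.SpecC

set_option autoImplicit false

namespace Pool.Agent.HM

open Finset Pool.Agent.helper38.Neg Pool.Agent.helper55.NT

theorem TRM_op {n : ℕ} {L : List (Fn n × ℕ)} {g : Fn n} {δ δ' : ℕ} (h : OpH L (g, δ)) (hd : δ ≤ δ') :
    OpH L (g, δ') := by
  rcases h with ⟨ε, h1, h2⟩ | h
  · exact Or.inl ⟨ε, le_trans h1 hd, h2⟩
  · exact Or.inr h

theorem TRM_iter {a n t : ℕ} (L : List (Fn n × ℕ)) (hL : HSL a n t L) (P : ℕ → Fn n × ℕ) (K : ℕ)
    (h : ∀ i < K, ∀ L', HSL a n t L' → (∀ p, OpH L p → OpH L' p) → Ext a n t L' 1 {P i}) :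
    Ext a n t L K {p | ∃ i < K, p = P i} := by
  induction K with
  | zero =>
    refine ⟨L, hL, le_refl _, fun _ hp => hp, ?_⟩
    rintro p ⟨i, hi, _⟩
    exact absurd hi (Nat.not_lt_zero i)
  | succ K ih =>
    obtain ⟨L1, h1, h2, h3, h4⟩ := ih (fun i hi => h i (Nat.lt_succ_of_lt hi))
    obtain ⟨L2, k1, k2, k3, k4⟩ := h K (Nat.lt_succ_self K) L1 h1 h3
    refine ⟨L2, k1, by omega, fun p hp => k3 p (h3 p hp), ?_⟩
    rintro p ⟨i, hi, rfl⟩
    rcases Nat.lt_succ_iff_lt_or_eq.mp hi with h5 | h5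
    · exact k3 _ (h4 _ ⟨i, h5, rfl⟩)
    · subst h5
      exact k4 _ rfl

theorem TRM (hUSM : USM_stmt) (hWIM : WIM_stmt) (hLEA : LEA_stmt) : TRM_stmt := by
  intro a n t s m f C o b r hm ha hf hC hb hr hn
  obtain ⟨hW1, hW2, hW3, hW4, _, _⟩ := hWIM f hf
  set q : ℕ := m + 1 with hq
  set L0 : ℕ := q ^ r * (4 * b * (s + 1) * (n + 2) ^ (b + 2)) + (n + 2) * (8 * b * (n + 2) ^ (b + 2)) with hL0
  have key : ∀ j, j ≤ r → ∃ c, c + q ^ (r - j) ≤ q ^ r ∧ Ext a n t [] (L0 + c)
      ({p | ∃ i < q ^ (r - j), p = (Wn f (i * (b * q ^ j)) ((i + 1) * (b * q ^ j)), j)} ∪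
        {p | ∃ i, p = (Th i, 0)}) := by
    intro j
    induction j with
    | zero =>
      intro _
      refine ⟨0, by simp, ?_⟩
      have h := hLEA (a := a) (t := t) f C o b (q ^ r) (by omega) hf hC hb
      obtain ⟨L', h1, h2, h3, h4⟩ := h
      refine ⟨L', h1, by simpa using h2, h3, ?_⟩
      intro p hp
      refine h4 p ?_
      rcases hp with ⟨i, hi, rfl⟩ | ⟨i, rfl⟩
      · left
        refine ⟨i, by simpa using hi, ?_⟩
        rw [pow_zero, mul_one]
      · right
        exact ⟨i, rfl⟩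
    | succ j ih =>
      intro hj
      obtain ⟨c, hc, L', h1, h2, h3, h4⟩ := ih (by omega)
      have hqq : q ^ (r - j) = q ^ (r - (j + 1)) * q := by
        rw [← pow_succ]
        congr 1
        omega
      have hit := TRM_iter (a := a) (t := t) L' h1
        (fun i => (Wn f (i * (b * q ^ (j + 1))) ((i + 1) * (b * q ^ (j + 1))), j + 1)) (q ^ (r - (j + 1))) (by
          intro i hi L'' k1 k2
          set mid : ℕ → ℕ := fun l => (i * q + l) * (b * q ^ j) with hmid
          have hmono : Monotone mid := by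
            intro x y hxy
            exact Nat.mul_le_mul_right _ (by omega)
          have hm0 : mid 0 = i * (b * q ^ (j + 1)) := by
            simp only [hmid]
            ring
          have hm1 : mid (m + 1) = (i + 1) * (b * q ^ (j + 1)) := by
            simp only [hmid]
            rw [← hq]
            ring
          refine hUSM m L'' (fun l => Th (mid (l + 1))) (fun l => Wn f (mid l) (mid (l + 1))) _ ha k1 ?_ ?_
            (by omega) ?_ ?_
          · intro l _
            exact TRM_op (k2 _ (h4 _ (Or.inr ⟨_, rfl⟩))) (Nat.zero_le j)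
          · intro l hl
            refine k2 _ (h4 _ (Or.inl ⟨i * q + l, ?_, ?_⟩))
            · rw [hqq]
              have : (i + 1) * q ≤ q ^ (r - (j + 1)) * q := Nat.mul_le_mul_right q hi
              nlinarith
            · rfl
          · exact hW1 _ _ (Nat.mul_le_mul_right _ (by omega))
          · intro x
            have := hW3 m mid hmono x
            rw [hm0, hm1] at this
            exact this)
      obtain ⟨L2, k1, k2, k3, k4⟩ := hit
      refine ⟨c + q ^ (r - (j + 1)), ?_, L2, k1, ?_, fun p hp => k3 p (h3 p hp), ?_⟩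
      · have h2q : 2 * q ^ (r - (j + 1)) ≤ q ^ (r - (j + 1)) * q := by
          rw [mul_comm]
          exact Nat.mul_le_mul_left _ (by omega)
        omega
      · simp only [List.length_nil] at h2 ⊢
        omega
      · intro p hp
        rcases hp with hp | ⟨i, rfl⟩
        · exact k4 p hp
        · exact k3 _ (h4 _ (Or.inr ⟨i, rfl⟩))
  obtain ⟨c, hc, L', h1, h2, h3, h4⟩ := key r le_rfl
  refine ⟨L', h1, ?_, h3, ?_⟩
  · refine h2.trans ?_
    have : c ≤ q ^ r := by omega
    omega
  · intro p hp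
    have hp' : p = (f, r) := hp
    subst hp'
    have h5 := h4 (Wn f (0 * (b * q ^ r)) ((0 + 1) * (b * q ^ r)), r) (Or.inl ⟨0, by simp, rfl⟩)
    rw [zero_mul, zero_add, one_mul, hW4 _ hn] at h5
    exact h5

end Pool.Agent.HM
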